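import Mathlib

namespace Pool.Agent.Results.MP_c02c06_co.Max

open Finset

/-- `a(n) + a(n-1) + ⋯ + a(n-r+1)`, indices `≤ 0` being read as `0` -/
def win (r : ℕ) (a : ℕ → ℕ) (n : ℕ) : ℕ := ∑ j ∈ range r, a (n - j)

/-- nondecreasing positive sequences (with `a 0 = 0`) solving the functional equation -/
def Sol (r : ℕ) (a : ℕ → ℕ) : Prop :=
  a 0 = 0 ∧ (∀ n, 1 ≤ n → 1 ≤ a n) ∧ Monotone a ∧ ∀ n, 1 ≤ n → a (win r a n) = n

/-- the almost Golomb sequence: each term as small as possible given the earlier terms -/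
def IsAG (r : ℕ) (a : ℕ → ℕ) : Prop :=
  Sol r a ∧ ∀ b, Sol r b → ∀ n, (∀ i < n, b i = a i) → a n ≤ b n

/-- number of occurrences of `n` -/
noncomputable def mult (a : ℕ → ℕ) (n : ℕ) : ℕ∞ := {i | 1 ≤ i ∧ a i = n}.encard

def cc (r : ℕ) : ℕ → ℕ
  | 0 => 0
  | 1 => 1
  | 2 => 2
  | 3 => 2
  | 4 => 2
  | k + 5 => cc r (k + 4) +
      if k + 5 = ∑ j ∈ range r, cc r (min (cc r (k + 4) + 1 - j) (k + 4)) then 1 else 0
decreasing_by all_goals omega

variable {r : ℕ}

theorem c0 : cc r 0 = 0 := by rw [cc]
theorem c1 : cc r 1 = 1 := by rw [cc]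
theorem c2 : cc r 2 = 2 := by rw [cc]
theorem c3 : cc r 3 = 2 := by rw [cc]
theorem c4 : cc r 4 = 2 := by rw [cc]

theorem step (k : ℕ) : cc r k ≤ cc r (k + 1) ∧ cc r (k + 1) ≤ cc r k + 1 := by
  match k with
  | 0 => simp [c0, c1]
  | 1 => simp [c1, c2]
  | 2 => simp [c2, c3]
  | 3 => simp [c3, c4]
  | k + 4 => rw [cc]; split_ifs <;> omega

theorem mono : Monotone (cc r) := monotone_nat_of_le_succ fun k => (step k).1

theorem lip (x y : ℕ) : cc r (x + y) ≤ cc r x + y := by
  induction y with
  | zero => simp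
  | succ y ih => have := (step (r := r) (x + y)).2; rw [← add_assoc]; omega

theorem le_self (k : ℕ) : cc r k ≤ k := by simpa [c0] using lip (r := r) 0 k

theorem unf (k : ℕ) (hk : 4 ≤ k) :
    cc r (k + 1) = cc r k + if k + 1 = win r (cc r) (cc r k + 1) then 1 else 0 := by
  obtain ⟨t, rfl⟩ : ∃ t, k = t + 4 := ⟨k - 4, by omega⟩
  have := lip (r := r) 4 t
  rw [c4, add_comm 4 t] at this
  rw [cc, win]
  congr 2
  rw [sum_congr rfl fun j _ => by rw [min_eq_left (by omega)]]

theorem win_succ (a : ℕ → ℕ) (n : ℕ) :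
    win r a (n + 1) + a (n + 1 - r) = win r a n + a (n + 1) := by
  have h1 := sum_range_succ (fun j => a (n + 1 - j)) r
  have h2 := sum_range_succ' (fun j => a (n + 1 - j)) r
  simp only [Nat.add_sub_add_right, Nat.sub_zero] at h2
  unfold win; omega

theorem win0 (a : ℕ → ℕ) (h : a 0 = 0) : win r a 0 = 0 := by simp [win, h]

theorem w123 (hr : 5 ≤ r) : win r (cc r) 1 = 1 ∧ win r (cc r) 2 = 3 ∧ win r (cc r) 3 = 5 := by
  have a := win_succ (r := r) (cc r) 0
  have b := win_succ (r := r) (cc r) 1
  have c := win_succ (r := r) (cc r) 2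
  rw [show 0 + 1 - r = 0 by omega, win0 _ c0] at a
  rw [show 1 + 1 - r = 0 by omega] at b
  rw [show 2 + 1 - r = 0 by omega] at c
  simp only [c0, zero_add, c1, c2, c3, Nat.reduceAdd] at a b c
  omega

theorem c5 (hr : 5 ≤ r) : cc r 5 = 3 := by
  rw [unf 4 le_rfl, c4, (w123 hr).2.2]; rfl

theorem first (hr : 5 ≤ r) : ∀ n, 3 ≤ n →
    cc r (win r (cc r) n) = n ∧ ∀ k < win r (cc r) n, cc r k < n := by
  intro n
  induction n using Nat.strong_induction_on with
  | _ n ih =>
    intro hn
    rcases Nat.eq_or_lt_of_le hn with rfl | hn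
    · rw [(w123 hr).2.2]
      refine ⟨c5 hr, fun k hk => ?_⟩
      have := mono (r := r) (show k ≤ 4 by omega)
      rw [c4] at this; omega
    obtain ⟨n, rfl⟩ : ∃ m, n = m + 1 := ⟨n - 1, by omega⟩
    obtain ⟨p1, p2⟩ := ih n (by omega) (by omega)
    have ws := win_succ (r := r) (cc r) n
    have lt : cc r (n + 1 - r) < cc r (n + 1) := by
      have h4 := mono (r := r) (show 4 ≤ n + 1 by omega)
      rw [c4] at h4
      rcases Nat.eq_zero_or_pos (n + 1 - r) with e | e
      · rw [e, c0]; omega
      have h5 := mono (r := r) (show 5 ≤ n + 1 by omega)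
      rw [c5 hr] at h5
      by_cases v3 : cc r (n + 1 - r) < 3
      · omega
      have vl := le_self (r := r) (n + 1 - r)
      generalize hv : cc r (n + 1 - r) = v at *
      obtain ⟨-, q2⟩ := ih v (by omega) (by omega)
      obtain ⟨q3, -⟩ := ih (v + 1) (by omega) (by omega)
      have a : win r (cc r) v ≤ n + 1 - r := by
        by_contra hh
        have := q2 _ (not_le.1 hh); omega
      have b := win_succ (r := r) (cc r) v
      have c := lip (r := r) (v + 1 - r) r
      have d := mono (r := r) (show v + 1 ≤ v + 1 - r + r by omega)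
      have := mono (r := r) (show win r (cc r) (v + 1) ≤ n + 1 by omega)
      omega
    have w5 : 5 ≤ win r (cc r) n := by
      by_contra hh
      have := mono (r := r) (show win r (cc r) n ≤ 4 by omega)
      rw [c4] at this; omega
    have run : ∀ t, win r (cc r) n + t < win r (cc r) (n + 1) →
        cc r (win r (cc r) n + t) = n := by
      intro t
      induction t with
      | zero => intro _; exact p1
      | succ t iht =>
        intro ht
        rw [← add_assoc, unf _ (by omega), iht (by omega), if_neg (by omega), add_zero]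
    obtain ⟨t, ht⟩ : ∃ t, win r (cc r) (n + 1) = win r (cc r) n + t + 1 :=
      ⟨win r (cc r) (n + 1) - win r (cc r) n - 1, by omega⟩
    have e := run t (by omega)
    refine ⟨by rw [ht, unf _ (by omega), e, if_pos ht.symm], fun k hk => ?_⟩
    have := mono (r := r) (show k ≤ win r (cc r) n + t by omega)
    omega

theorem sol (hr : 5 ≤ r) : Sol r (cc r) := by
  refine ⟨c0, fun n hn => by have := mono (r := r) hn; rwa [c1] at this, mono, fun n hn => ?_⟩
  rcases (show n = 1 ∨ n = 2 ∨ 3 ≤ n by omega) with rfl | rfl | h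
  · rw [(w123 hr).1, c1]
  · rw [(w123 hr).2.1, c3]
  · exact (first hr n h).1

theorem least (hr : 5 ≤ r) (b : ℕ → ℕ) (hb : Sol r b) (n : ℕ) (e : ∀ i < n, b i = cc r i) :
    cc r n ≤ b n := by
  obtain ⟨b0, b1, b2, b3⟩ := hb
  match n with
  | 0 => simp [c0]
  | 1 => rw [c1]; exact b1 1 le_rfl
  | 2 =>
    have a := win_succ (r := r) b 0
    have c := win_succ (r := r) b 1
    rw [show 0 + 1 - r = 0 by omega, win0 _ b0] at a
    rw [show 1 + 1 - r = 0 by omega] at c
    have d := e 1 (by omega)
    have f := b3 2 (by omega)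
    have g := b1 2 (by omega)
    simp only [zero_add, Nat.reduceAdd, b0, c1] at a c d
    rw [c2]
    by_contra hh
    rw [show win r b 2 = 2 by omega] at f
    omega
  | 3 => have := b2 (show 2 ≤ 3 by omega); rw [e 2 (by omega), c2] at this; rwa [c3]
  | 4 => have := b2 (show 3 ≤ 4 by omega); rw [e 3 (by omega), c3] at this; rwa [c4]
  | k + 5 =>
    have m := b2 (show k + 4 ≤ k + 5 by omega)
    rw [e _ (by omega)] at m
    rw [unf (k + 4) (by omega)]
    split_ifs with c
    · have := lip (r := r) 4 k
      rw [c4, add_comm 4 k] at this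
      have w : win r b (cc r (k + 4) + 1) = win r (cc r) (cc r (k + 4) + 1) :=
        sum_congr rfl fun j _ => e _ (by omega)
      have := b3 (cc r (k + 4) + 1) (by omega)
      rw [w, ← c] at this
      exact this.ge
    · exact m

theorem gap (hr : 5 ≤ r) : ∀ u, cc r u < cc r (u + cc r r) := by
  have A3 : 3 ≤ cc r r := by have := mono (r := r) hr; rwa [c5 hr] at this
  have lt_w : ∀ n x, 3 ≤ n → cc r x < n → x < win r (cc r) n := fun n x hn h => by
    by_contra hh
    have := mono (r := r) (not_lt.1 hh)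
    rw [(first hr n hn).1] at this; omega
  have le_w : ∀ n x, 3 ≤ n → n ≤ cc r x → win r (cc r) n ≤ x := fun n x hn h => by
    by_contra hh
    have := (first hr n hn).2 x (not_le.1 hh); omega
  generalize hA : cc r r = A at *
  have wA : r < win r (cc r) (A + 1) := lt_w _ _ (by omega) (by omega)
  have D : ∀ j, j + 1 + A ≤ r → win r (cc r) (j + 1) + r ≤ win r (cc r) (j + 1 + A) := by
    intro j
    induction j with
    | zero => intro _; rw [zero_add, (w123 hr).1, add_comm 1 A]; omega
    | succ j ih =>
      intro h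
      have := ih (by omega)
      have a := win_succ (r := r) (cc r) (j + 1)
      have b := win_succ (r := r) (cc r) (j + 1 + A)
      rw [show j + 1 + 1 - r = 0 by omega, c0] at a
      rw [show j + 1 + A + 1 - r = 0 by omega, c0] at b
      have := mono (r := r) (show j + 1 + 1 ≤ j + 1 + A + 1 by omega)
      rw [show j + 1 + 1 + A = j + 1 + A + 1 by omega]
      omega
  have B : ∀ x, 1 ≤ x → (∀ u ≤ x + 1, cc r u < cc r (u + A)) → cc r (x + r) ≤ cc r x + A := by
    intro x x1 Q
    by_contra hh
    have h1 := mono (r := r) x1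
    rw [c1] at h1
    have xl := le_self (r := r) x
    have a := le_w (cc r x + 1 + A) (x + r) (by omega) (by omega)
    by_cases j2 : cc r x = 1
    · have x2 : x = 1 := by
        by_contra h
        have := mono (r := r) (show 2 ≤ x by omega)
        rw [c2] at this; omega
      have := lt_w (A + 2) (win r (cc r) (A + 1)) (by omega)
        (by rw [(first hr _ (by omega)).1]; omega)
      rw [j2, show 1 + 1 + A = A + 2 by omega] at a
      omega
    have b := lt_w (cc r x + 1) x (by omega) (by omega)
    rcases Nat.lt_or_ge r (cc r x + 1 + A) with c | c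
    · have : ∑ i ∈ range r, (cc r (cc r x + 1 - i) + 1) ≤ win r (cc r) (cc r x + 1 + A) := by
        apply sum_le_sum
        intro i hi
        rw [mem_range] at hi
        rcases Nat.lt_or_ge (cc r x + 1) i with d | d
        · rw [show cc r x + 1 - i = 0 by omega, c0]
          exact (sol hr).2.1 _ (by omega)
        · rw [show cc r x + 1 + A - i = cc r x + 1 - i + A by omega]
          exact Q _ (by omega)
      rw [sum_add_distrib, sum_const, card_range, smul_eq_mul, mul_one] at this
      unfold win at *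
      omega
    · have := D _ c
      omega
  intro u
  induction u using Nat.strong_induction_on with
  | _ u ih =>
    by_cases v3 : cc r u < 3
    · rcases (show u = 0 ∨ u = 1 ∨ 2 ≤ u by omega) with rfl | rfl | h
      · rw [c0]; exact (sol hr).2.1 _ (by omega)
      · have := mono (r := r) (show 2 ≤ 1 + A by omega)
        rw [c2] at this; rw [c1]; omega
      · have := mono (r := r) (show 5 ≤ u + A by omega)
        rw [c5 hr] at this; omega
    have vl := le_self (r := r) u
    have a := le_w (cc r u) u (by omega) le_rfl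
    have b := win_succ (r := r) (cc r) (cc r u)
    have c : cc r (cc r u + 1) ≤ cc r (cc r u + 1 - r) + A := by
      rcases Nat.lt_or_ge r (cc r u + 1) with d | d
      · have := B (cc r u + 1 - r) (by omega) (fun w hw => ih w (by omega))
        rwa [show cc r u + 1 - r + r = cc r u + 1 by omega] at this
      · have := mono (r := r) d; omega
    have := mono (r := r) (show win r (cc r) (cc r u + 1) ≤ u + A by omega)
    rw [(first hr _ (by omega)).1] at this
    omega

theorem mult_le (hr : 5 ≤ r) (n : ℕ) : mult (cc r) n ≤ cc r r := by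
  classical
  unfold mult
  by_cases h : ∃ i, cc r i = n
  · have : {i | 1 ≤ i ∧ cc r i = n} ⊆ (Ico (Nat.find h) (Nat.find h + cc r r) : Finset ℕ) := by
      rintro i ⟨-, e⟩
      have a := Nat.find_min' h e
      have b := Nat.find_spec h
      have c := gap hr (Nat.find h)
      simp only [coe_Ico, Set.mem_Ico]
      refine ⟨a, ?_⟩
      by_contra hh
      have := mono (r := r) (not_lt.1 hh)
      omega
    refine (Set.encard_le_encard this).trans ?_
    rw [Set.encard_coe_eq_coe_finsetCard]; simp
  · rw [show {i | 1 ≤ i ∧ cc r i = n} = ∅ from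
      Set.eq_empty_of_forall_notMem fun i hi => h ⟨i, hi.2⟩]
    simp

theorem mult_ge (hr : 5 ≤ r) : (cc r r : ℕ∞) ≤ mult (cc r) (r - 1) := by
  have w := win_succ (r := r) (cc r) (r - 1)
  rw [show r - 1 + 1 = r by omega, Nat.sub_self, c0] at w
  have : ((Ico (win r (cc r) (r - 1)) (win r (cc r) (r - 1) + cc r r) : Finset ℕ) : Set ℕ) ⊆
      {i | 1 ≤ i ∧ cc r i = r - 1} := by
    intro i hi
    simp only [coe_Ico, Set.mem_Ico] at hi
    have a := mono (r := r) hi.1
    rw [(first hr _ (by omega)).1] at a
    have b := (first hr r (by omega)).2 i (by omega)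
    have := le_self (r := r) i
    exact ⟨by omega, by omega⟩
  refine le_trans ?_ (Set.encard_le_encard this)
  rw [Set.encard_coe_eq_coe_finsetCard]; simp

theorem result (r : ℕ) (hr : 5 ≤ r) : (∃ a, IsAG r a) ∧ ∀ a, IsAG r a →
    mult a (r - 1) < ⊤ ∧ ⨆ n ∈ {n : ℕ | 1 ≤ n}, mult a n = mult a (r - 1) := by
  refine ⟨⟨cc r, sol hr, least hr⟩, fun a ha => ?_⟩
  have : a = cc r := by
    funext n
    induction n using Nat.strong_induction_on with
    | _ n ih =>
      exact le_antisymm (ha.2 _ (sol hr) n fun i hi => (ih i hi).symm) (least hr a ha.1 n ih)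
  subst this
  refine ⟨(mult_le hr _).trans_lt (ENat.coe_lt_top _), le_antisymm
    (iSup₂_le fun n _ => (mult_le hr n).trans (mult_ge hr)) ?_⟩
  exact le_iSup₂_of_le (r - 1) (show 1 ≤ r - 1 by omega) le_rfl

end Pool.Agent.Results.MP_c02c06_co.Max
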